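import Pool.Agent.helper1.UN.Spec3

set_option autoImplicit false

/-!
# UN (MP_cf4097_nt), row HGC
-/

open NumberField Complex MeasureTheory

namespace Pool.Agent.UN

theorem HGC_ph_norm (t u : ℝ) : ‖ph t u‖ = 1 := by
  rw [ph, show (-((t * u : ℝ) : ℂ) * I) = ((-(t * u) : ℝ) : ℂ) * I by push_cast; ring, Complex.norm_exp_ofReal_mul_I]

theorem HGC_ph_add (t u v : ℝ) : ph t (u + v) = ph t u * ph t v := by
  rw [ph, ph, ph, ← Complex.exp_add]
  congr 1
  push_cast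
  ring

theorem HGC_ph_zero (t : ℝ) : ph t 0 = 1 := by
  rw [ph]
  simp

section

variable {K : Type} [Field K] [NumberField K]

theorem HGC_coe {x : 𝓞 K} (hx : x ≠ 0) : (x : K) ≠ 0 := by
  intro h
  exact hx (RingOfIntegers.ext h)

theorem HGC_emb {x : 𝓞 K} (hx : x ≠ 0) (w : InfinitePlace K) : w.embedding (x : K) ≠ 0 := by
  intro h
  exact HGC_coe hx ((map_eq_zero w.embedding).mp h)

theorem HGC_norm (τ : InfinitePlace K → ℝ) (m : InfinitePlace K → ℤ) {x : 𝓞 K} (hx : x ≠ 0) : ‖Ar τ m x‖ = 1 := by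
  rw [Ar, norm_prod]
  refine Finset.prod_eq_one fun w _ => ?_
  rw [norm_mul, HGC_ph_norm, one_mul, norm_zpow, norm_div, Complex.norm_real, norm_norm,
    div_self (norm_ne_zero_iff.mpr (HGC_emb hx w)), one_zpow]

theorem HGC_one (τ : InfinitePlace K → ℝ) (m : InfinitePlace K → ℤ) : Ar τ m 1 = 1 := by
  rw [Ar]
  refine Finset.prod_eq_one fun w _ => ?_
  have h1 : ((1 : 𝓞 K) : K) = 1 := rfl
  rw [h1, map_one, Real.log_one, HGC_ph_zero, map_one, norm_one, Complex.ofReal_one, div_one, one_zpow, one_mul]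

theorem HGC_mul (τ : InfinitePlace K → ℝ) (m : InfinitePlace K → ℤ) {x y : 𝓞 K} (hx : x ≠ 0) (hy : y ≠ 0) :
    Ar τ m (x * y) = Ar τ m x * Ar τ m y := by
  rw [Ar, Ar, Ar, ← Finset.prod_mul_distrib]
  refine Finset.prod_congr rfl fun w _ => ?_
  have h1 : ((x * y : 𝓞 K) : K) = (x : K) * (y : K) := rfl
  have hwx : w (x : K) ≠ 0 := (map_ne_zero w).mpr (HGC_coe hx)
  have hwy : w (y : K) ≠ 0 := (map_ne_zero w).mpr (HGC_coe hy)
  rw [h1, map_mul, Real.log_mul hwx hwy, HGC_ph_add, map_mul, norm_mul, Complex.ofReal_mul, mul_div_mul_comm, mul_zpow]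
  ring

theorem HGC_conj (τ : InfinitePlace K → ℝ) (m : InfinitePlace K → ℤ) {x : 𝓞 K} (hx : x ≠ 0) :
    (starRingEnd ℂ) (Ar τ m x) * Ar τ m x = 1 := by
  rw [mul_comm, Complex.mul_conj, Complex.normSq_eq_norm_sq, HGC_norm τ m hx]
  norm_num

end

theorem HGC : HGC_stmt := by
  classical
  intro K _ _ f χ τ m h
  refine ⟨⟨h.f0, h.bot, h.one, h.mul, h.unit, h.zero⟩, fun x hx => HGC_norm τ m hx, ?_⟩
  have key : ∀ x : 𝓞 K, x ≠ 0 → χ (Ideal.span {x}) =
      (if x = 0 then 0 else χ (Ideal.span {x}) * (starRingEnd ℂ) (Ar τ m x)) * Ar τ m x := by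
    intro x hx
    rw [if_neg hx, mul_assoc, HGC_conj τ m hx, mul_one]
  refine ⟨fun x => if x = 0 then 0 else χ (Ideal.span {x}) * (starRingEnd ℂ) (Ar τ m x), ⟨⟨h.f0, if_pos rfl, ?_, ?_, ?_,
    ?_, ?_⟩, ?_⟩, key⟩
  · show (if (1 : 𝓞 K) = 0 then (0 : ℂ) else χ (Ideal.span {1}) * (starRingEnd ℂ) (Ar τ m 1)) = 1
    rw [if_neg one_ne_zero, HGC_one, map_one, mul_one, Ideal.span_singleton_one, h.one]
  · intro x y
    show (if x * y = 0 then (0 : ℂ) else χ (Ideal.span {x * y}) * (starRingEnd ℂ) (Ar τ m (x * y))) =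
      (if x = 0 then (0 : ℂ) else χ (Ideal.span {x}) * (starRingEnd ℂ) (Ar τ m x)) *
        (if y = 0 then (0 : ℂ) else χ (Ideal.span {y}) * (starRingEnd ℂ) (Ar τ m y))
    by_cases hx : x = 0
    · rw [if_pos hx, if_pos (by rw [hx, zero_mul]), zero_mul]
    · by_cases hy : y = 0
      · rw [if_pos hy, if_pos (by rw [hy, mul_zero]), mul_zero]
      · rw [if_neg hx, if_neg hy, if_neg (mul_ne_zero hx hy), HGC_mul τ m hx hy, map_mul,
          ← Ideal.span_singleton_mul_span_singleton, h.mul]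
        ring
  · intro x hx hxf
    show ‖(if x = 0 then (0 : ℂ) else χ (Ideal.span {x}) * (starRingEnd ℂ) (Ar τ m x))‖ = 1
    rw [if_neg hx, norm_mul, Complex.norm_conj, HGC_norm τ m hx, mul_one]
    exact h.unit _ (by rwa [Ne, Ideal.span_singleton_eq_bot]) hxf
  · intro x hxf
    show (if x = 0 then (0 : ℂ) else χ (Ideal.span {x}) * (starRingEnd ℂ) (Ar τ m x)) = 0
    split_ifs
    · rfl
    · rw [h.zero _ hxf, zero_mul]
  · intro x y hx hy hxy hs
    show (if x = 0 then (0 : ℂ) else χ (Ideal.span {x}) * (starRingEnd ℂ) (Ar τ m x)) =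
      (if y = 0 then (0 : ℂ) else χ (Ideal.span {y}) * (starRingEnd ℂ) (Ar τ m y))
    rw [if_neg hx, if_neg hy]
    have h1 := h.per x y hx hy hxy hs
    have h2 := HGC_conj τ m hx
    have h3 := HGC_conj τ m hy
    calc χ (Ideal.span {x}) * (starRingEnd ℂ) (Ar τ m x) =
        χ (Ideal.span {x}) * (starRingEnd ℂ) (Ar τ m x) * ((starRingEnd ℂ) (Ar τ m y) * Ar τ m y) := by rw [h3, mul_one]
      _ = (χ (Ideal.span {x}) * Ar τ m y) * ((starRingEnd ℂ) (Ar τ m x) * (starRingEnd ℂ) (Ar τ m y)) := by ring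
      _ = (χ (Ideal.span {y}) * (starRingEnd ℂ) (Ar τ m y)) * ((starRingEnd ℂ) (Ar τ m x) * Ar τ m x) := by
        rw [h1]
        ring
      _ = χ (Ideal.span {y}) * (starRingEnd ℂ) (Ar τ m y) := by rw [h2, mul_one]
  · intro g hg
    obtain ⟨x, hx, h1, h2, h3, h4⟩ := h.prim g hg
    refine ⟨x, hx, h1, h2, h3, fun h5 => h4 ?_⟩
    have h6 := key x hx
    rw [h6]
    have h7 : (if x = 0 then (0 : ℂ) else χ (Ideal.span {x}) * (starRingEnd ℂ) (Ar τ m x)) = 1 := h5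
    rw [h7, one_mul]

end Pool.Agent.UN
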